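import Pool.Agent.Lib.MP_cfca38_ag.Assembly

/-!
# Unirationality of the non-liftable Calabi-Yau varieties over `Gr(2, p + 2)`

Notation: `N = p + 2`, `G = Gr(2, N)`, `X = P_G(F^* S)`, of dimension `2 p + 1`, `-K_X = 2 A`.
A point of `X` is a plane `V = <v, w>` of `k^N` together with a line of `V^(p)`, spanned by
`X v^(p) + Y w^(p)`. Sections of `O_X(m A)` are the polynomials `f(v, w; X, Y)` which are
homogeneous of degree `m` in `(X, Y)` and satisfy the transformation law `IsSec.equi`
(`MPcfca.IsSec`). The divisor `f = 0` is smooth if and only if at every point of the space of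
frames some partial derivative of `f` is not zero (`MPcfca.Smooth`). `MPcfca.chart f` is the
equation of the divisor in an open chart `A^(2 p + 1)` of `X`, and `MPcfca.dbl f` the equation
`s ^ 2 = f` of the double cover of `X` branched along it.
-/

namespace Pool.Agent.Results.MP_cfca38_ag.Unirational

open MPcfca MvPolynomial

universe u

/-- All the varieties (A) and (B) are unirational, for every prime `p ≥ 5`. -/
theorem result (p : ℕ) [Fact p.Prime] (hp : 5 ≤ p) (k : Type u) [Field k] [IsAlgClosed k]
    [CharP k p] (f : MvPolynomial (Idx (p + 2)) k) (hf : Smooth f) :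
    (IsSec p 2 f → Prime f ∧ Unirational (chart f) (2 * p)) ∧
      (IsSec p 4 f → Prime f ∧ Unirational (dbl f) (2 * p + 1)) :=
  ⟨fun h => ⟨prF p k 2 f ⟨hp, Or.inl rfl, h, hf⟩, goalAF p k hp f h hf⟩,
    fun h => ⟨prF p k 4 f ⟨hp, Or.inr rfl, h, hf⟩, goalBF p k hp f h hf⟩⟩

end Pool.Agent.Results.MP_cfca38_ag.Unirational
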